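import Pool.Agent.Helper41.FX.StK2

/-!
# Project FX (MP_3bffab_ag), chapter K, the chain: module C2

Stage B for the concrete ring.
-/

set_option autoImplicit false

namespace Pool.Agent.Helper16.FX

open Polynomial Pool.Agent.Helper72.FX Pool.Agent.Helper41.FX

private theorem bnu_mem : (C bnu : B7[X]) ∈ j8 := by
  have ha : (C (v7 0) : B7[X]) ∈ j8 := Ideal.subset_span (by simp)
  have hb : (C (v7 1) : B7[X]) ∈ j8 := Ideal.subset_span (by simp)
  have h : (C bnu : B7[X]) = (2 + C (v7 2) * C (v7 1)) * C (v7 1) - C (v7 0) * C (v7 0) := by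
    have h0 : bnu = (2 + v7 2 * v7 1) * v7 1 - v7 0 * v7 0 := by
      simp only [bnu, nu]
      ring
    rw [h0]
    simp only [map_sub, map_mul, map_add, map_ofNat]
  rw [h]
  exact Ideal.sub_mem _ (Ideal.mul_mem_left _ _ hb) (Ideal.mul_mem_left _ _ ha)

private theorem pid_le : pid ⊥ (v7 3) bsA ≤ j8 := by
  have hs : (C (v7 3) : B7[X]) ∈ j8 := Ideal.subset_span (by simp)
  unfold pid
  rw [Ideal.map_bot, bot_sup_eq, Ideal.span_le, Set.singleton_subset_iff, SetLike.mem_coe]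
  have h : pel (v7 3) bsA = C (v7 3) * (X + C (v7 4)) - C bnu := by
    simp only [pel, bsA, map_sub, map_mul]
    ring
  rw [h]
  exact Ideal.sub_mem _ (Ideal.mul_mem_right _ _ hs) bnu_mem

private theorem bD_mem (r : B7[X]) (hr : (C bD : B7[X]) * r ∈ j8) : r ∈ j8 := by
  have hs : (C (v7 3) : B7[X]) ∈ j8 := Ideal.subset_span (by simp)
  have h : r = C bD * r - C (v7 3) *
      (C (v7 2 * (v7 4 * kx (v7 0) (v7 1) (v7 2) + v7 3 * v7 5)) * r) := by
    simp only [bD, map_add, map_mul, map_one]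
    ring
  rw [h]
  exact Ideal.sub_mem _ hr (Ideal.mul_mem_right _ _ hs)

theorem hC2 : StSTB → StF1 → StC1B → StC2 := by
  rintro hSTB ⟨hp, hn⟩ ⟨χA, hA0, hA1, hA2⟩
  obtain ⟨χ, h1, h2⟩ := hSTB B7[X] (pid ⊥ (v7 3) bsA) (C bD) bh (ZMod 2) χA hA2
  refine ⟨χ, ?_, ?_, h1⟩
  · have h3 := h2 (pid ⊥ (v7 3) bsA) le_rfl (fun r hr => (hp.mem_or_mem hr).resolve_left hn)
    rw [hA0] at h3
    exact h3
  · have h3 := h2 j8 pid_le bD_mem
    rw [hA1] at h3
    exact h3

end Pool.Agent.Helper16.FX
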