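import Pool.Agent.Helper72.FX.StC1

/-!
# Project FX (MP_3bffab_ag), chapter K: module CKQ

Kernel and cokernel of the multiplication by `x` on a cyclic module.
-/

set_option autoImplicit false

namespace Pool.Agent.Helper16.FX

open Pool.Agent.Helper72.FX

theorem hCKQ : StCKQ := by
  intro A _ J x
  constructor
  · let f : A →ₗ[A] Ck x (A ⧸ J) :=
      (LinearMap.range (LinearMap.lsmul A (A ⧸ J) x)).mkQ.comp (Submodule.mkQ J)
    have hf : Function.Surjective f :=
      (Submodule.mkQ_surjective _).comp (Submodule.mkQ_surjective _)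
    have hk : LinearMap.ker f = J ⊔ Ideal.span {x} := by
      ext a
      rw [LinearMap.mem_ker]
      have h1 : f a = 0 ↔ Submodule.mkQ J a ∈ LinearMap.range (LinearMap.lsmul A (A ⧸ J) x) :=
        Submodule.Quotient.mk_eq_zero _
      rw [h1, LinearMap.mem_range]
      constructor
      · rintro ⟨y, hy⟩
        obtain ⟨b, rfl⟩ := Submodule.mkQ_surjective J y
        have h2 : Submodule.mkQ J (a - x * b) = 0 := by
          rw [map_sub, ← hy]
          change LinearMap.lsmul A (A ⧸ J) x (Submodule.mkQ J b) - Submodule.mkQ J (x • b) = 0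
          rw [LinearMap.lsmul_apply, map_smul, sub_self]
        have h3 : a - x * b ∈ J := (Submodule.Quotient.mk_eq_zero J).1 h2
        have h4 : a = (a - x * b) + x * b := by ring
        rw [h4]
        exact Submodule.add_mem_sup h3 (Ideal.mul_mem_right b _ (Ideal.mem_span_singleton_self x))
      · intro ha
        obtain ⟨u, hu, v, hv, rfl⟩ := Submodule.mem_sup.1 ha
        obtain ⟨b, rfl⟩ := Ideal.mem_span_singleton'.1 hv
        refine ⟨Submodule.mkQ J b, ?_⟩
        have h5 : Submodule.mkQ J u = 0 := (Submodule.Quotient.mk_eq_zero J).2 hu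
        rw [map_add, h5, zero_add, mul_comm b x, LinearMap.lsmul_apply, ← map_smul]
        rfl
    exact ⟨((Submodule.quotEquivOfEq _ _ hk.symm).trans
      (f.quotKerEquivOfSurjective hf)).symm⟩
  · intro h
    refine ⟨fun y z => ?_⟩
    have key : ∀ w : Kn x (A ⧸ J), w = 0 := by
      rintro ⟨w, hw⟩
      obtain ⟨b, rfl⟩ := Submodule.mkQ_surjective J w
      apply Subtype.ext
      change Submodule.mkQ J b = 0
      rw [LinearMap.mem_ker, LinearMap.lsmul_apply, ← map_smul] at hw
      have h2 : x * b ∈ J := (Submodule.Quotient.mk_eq_zero J).1 hw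
      exact (Submodule.Quotient.mk_eq_zero J).2 (h b h2)
    rw [key y, key z]

end Pool.Agent.Helper16.FX
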