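import Pool.Agent.Helper84.FX.StT

set_option autoImplicit false

/-!
Project FX, chapter T, module INJ: a weak equivalence is injective on homotopy classes.
-/

namespace Pool.Agent.Helper16.FX

open Pool.Agent.Helper84.FX Set

private theorem inj_tail_cb {n : ℕ} {w : Fin (n + 1) → ℝ} (hw : w ∈ Cb (n + 1)) :
    (fun i : Fin n => w i.succ) ∈ Cb n := fun i => hw i.succ

private theorem inj_bd {n : ℕ} {w : Fin (n + 1) → ℝ} (hw : w ∈ Bd (n + 1)) :
    w 0 = 0 ∨ w 0 = 1 ∨ (fun i : Fin n => w i.succ) ∈ Bd n := by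
  obtain ⟨h1, i, hi⟩ := hw
  rcases Fin.eq_zero_or_eq_succ i with rfl | ⟨j, rfl⟩
  · rcases hi with hi | hi
    · exact Or.inl hi
    · exact Or.inr (Or.inl hi)
  · exact Or.inr (Or.inr ⟨inj_tail_cb h1, j, hi⟩)

private theorem inj_cont_tail (n : ℕ) : Continuous (fun (w : Fin (n + 1) → ℝ) (i : Fin n) => w i.succ) :=
  continuous_pi fun i => continuous_apply _

private theorem inj_cons_cb {n : ℕ} {s : ℝ} {u : Fin n → ℝ} (hs : s ∈ II) (hu : u ∈ Cb n) :
    (Fin.cons s u : Fin (n + 1) → ℝ) ∈ Cb (n + 1) := by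
  intro i
  refine Fin.cases ?_ (fun j => ?_) i
  · rw [Fin.cons_zero]; exact hs
  · rw [Fin.cons_succ]; exact hu j

private theorem inj_cont_cons (n : ℕ) :
    Continuous (fun q : ℝ × (Fin n → ℝ) => (Fin.cons q.1 q.2 : Fin (n + 1) → ℝ)) := by
  refine continuous_pi fun i => ?_
  refine Fin.cases ?_ (fun j => ?_) i
  · simp only [Fin.cons_zero]; exact continuous_fst
  · simp only [Fin.cons_succ]; exact (continuous_apply j).comp continuous_snd

theorem hINJ : StINJ := by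
  classical
  intro E F _ _ Y Z k hk n b₀ b₁ H hb0 hb1 hbb hH hH0 hH1 hHb
  let tl : (Fin (n + 1) → ℝ) → (Fin n → ℝ) := fun w i => w i.succ
  let a : (Fin (n + 1) → ℝ) → E := fun w => if w 0 ≤ 1 / 2 then b₀ (tl w) else b₁ (tl w)
  let b : (Fin (n + 1) → ℝ) → F := fun w => H (w 0, tl w)
  have htl : Continuous tl := inj_cont_tail n
  have htm : ∀ w ∈ Bd (n + 1), tl w ∈ Cb n := fun w hw => inj_tail_cb hw.1
  have ha : Mp (Bd (n + 1)) Y a := by
    constructor
    · refine ContinuousOn.if ?_ ?_ ?_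
      · intro w hw
        have h1 : w 0 = 1 / 2 :=
          frontier_le_subset_eq (continuous_apply (0 : Fin (n + 1))) continuous_const hw.2
        rcases inj_bd hw.1 with h | h | h
        · rw [h1] at h; norm_num at h
        · rw [h1] at h; norm_num at h
        · exact hbb _ h
      · exact hb0.1.comp htl.continuousOn fun w hw => htm w hw.1
      · exact hb1.1.comp htl.continuousOn fun w hw => htm w hw.1
    · intro w hw
      change (if w 0 ≤ 1 / 2 then b₀ (tl w) else b₁ (tl w)) ∈ Y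
      split_ifs
      · exact hb0.2 (htm w hw)
      · exact hb1.2 (htm w hw)
  have hpair : ∀ w ∈ Cb (n + 1), (w 0, tl w) ∈ II ×ˢ Cb n := fun w hw => ⟨hw 0, inj_tail_cb hw⟩
  have hb : Mp (Cb (n + 1)) Z b := by
    constructor
    · exact hH.1.comp ((continuous_apply (0 : Fin (n + 1))).prodMk htl).continuousOn hpair
    · intro w hw
      exact hH.2 (hpair w hw)
  have hab : ∀ w ∈ Bd (n + 1), b w = k (a w) := by
    intro w hw
    have hcb := htm w hw
    change H (w 0, tl w) = k (if w 0 ≤ 1 / 2 then b₀ (tl w) else b₁ (tl w))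
    rcases inj_bd hw with h | h | h
    · rw [h, if_pos (by norm_num)]
      exact hH0 _ hcb
    · rw [h, if_neg (by norm_num)]
      exact hH1 _ hcb
    · have e1 : H (w 0, tl w) = k (b₀ (tl w)) := hHb (w 0) (hw.1 0) _ h
      rw [e1]
      split_ifs
      · rfl
      · rw [hbb _ h]
  obtain ⟨c, -, hc, hca, -, -, -, -⟩ := hk.2 (n + 1) a b ha hb hab
  have hcons0 : ∀ (s : ℝ) (u : Fin n → ℝ), tl (Fin.cons s u : Fin (n + 1) → ℝ) = u := fun s u => by
    funext i
    exact Fin.cons_succ (α := fun _ => ℝ) s u i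
  refine ⟨fun q => c (Fin.cons q.1 q.2), ⟨?_, ?_⟩, ?_, ?_, ?_⟩
  · exact hc.1.comp (inj_cont_cons n).continuousOn fun q hq => inj_cons_cb hq.1 hq.2
  · intro q hq
    exact hc.2 (inj_cons_cb hq.1 hq.2)
  · intro u hu
    have hm : (Fin.cons (0 : ℝ) u : Fin (n + 1) → ℝ) ∈ Bd (n + 1) :=
      ⟨inj_cons_cb ⟨le_refl _, zero_le_one⟩ hu, 0, Or.inl (Fin.cons_zero _ _)⟩
    change c (Fin.cons (0 : ℝ) u : Fin (n + 1) → ℝ) = b₀ u
    rw [hca _ hm]
    change (if (Fin.cons (0 : ℝ) u : Fin (n + 1) → ℝ) 0 ≤ 1 / 2 then _ else _) = _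
    rw [Fin.cons_zero, if_pos (by norm_num), hcons0]
  · intro u hu
    have hm : (Fin.cons (1 : ℝ) u : Fin (n + 1) → ℝ) ∈ Bd (n + 1) :=
      ⟨inj_cons_cb ⟨zero_le_one, le_refl _⟩ hu, 0, Or.inr (Fin.cons_zero _ _)⟩
    change c (Fin.cons (1 : ℝ) u : Fin (n + 1) → ℝ) = b₁ u
    rw [hca _ hm]
    change (if (Fin.cons (1 : ℝ) u : Fin (n + 1) → ℝ) 0 ≤ 1 / 2 then _ else _) = _
    rw [Fin.cons_zero, if_neg (by norm_num), hcons0]
  · intro s hs u hu
    obtain ⟨hu1, i, hi⟩ := hu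
    have hm : (Fin.cons s u : Fin (n + 1) → ℝ) ∈ Bd (n + 1) := by
      refine ⟨inj_cons_cb hs hu1, i.succ, ?_⟩
      rw [Fin.cons_succ]
      exact hi
    change c (Fin.cons s u : Fin (n + 1) → ℝ) = b₀ u
    rw [hca _ hm]
    change (if (Fin.cons s u : Fin (n + 1) → ℝ) 0 ≤ 1 / 2 then b₀ _ else b₁ _) = _
    rw [hcons0]
    split_ifs
    · rfl
    · exact (hbb u ⟨hu1, i, hi⟩).symm

end Pool.Agent.Helper16.FX
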