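import Pool.Agent.Helper9.FX.StP

/-!
# Project FX (MP_3bffab_ag), section T4: module PKV

The values of the polynomials `kx`, `ky`, `kz` at complex points.
-/

set_option autoImplicit false

namespace Pool.Agent.Helper16.FX

open Pool.Agent.Helper9.FX
open Pool.Agent.Helper72.FX (nu NN W1 W0 LL gg J0 SS StKK kx ky kz kp cc)

section nat

variable {A B : Type} [CommRing A] [Algebra ℂ A] [CommRing B] [Algebra ℂ B]

private theorem map_cc (φ : A →ₐ[ℂ] B) (z : ℂ) : φ (cc A z) = cc B z := by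
  simp [cc]

private theorem map_nu (φ : A →ₐ[ℂ] B) (a b t : A) : φ (nu a b t) = nu (φ a) (φ b) (φ t) := by
  simp [nu, map_ofNat φ 2]

private theorem map_sm (φ : A →ₐ[ℂ] B) (c : A) (M : Matrix (Fin 2) (Fin 2) A) :
    φ.mapMatrix (c • M) = φ c • φ.mapMatrix M := by
  ext i j
  simp

private theorem map_NN (φ : A →ₐ[ℂ] B) (w : A × A) :
    φ.mapMatrix (NN w) = NN (φ w.1, φ w.2) := by
  ext i j
  fin_cases i <;> fin_cases j <;> simp [NN]

private theorem map_W1 (φ : A →ₐ[ℂ] B) (p q : ℂ) (a b t : A) :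
    (φ (W1 p q a b t).1, φ (W1 p q a b t).2) = W1 p q (φ a) (φ b) (φ t) := by
  simp [W1, map_cc, map_ofNat φ 2]

private theorem map_W0 (φ : A →ₐ[ℂ] B) (p q : ℂ) (a b t : A) :
    (φ (W0 p q a b t).1, φ (W0 p q a b t).2) = W0 p q (φ a) (φ b) (φ t) := by
  simp [W0, map_cc]

private theorem map_LL (φ : A →ₐ[ℂ] B) (m : A) (p q : ℂ) (a b t : A) :
    φ.mapMatrix (LL m p q a b t) = LL (φ m) p q (φ a) (φ b) (φ t) := by
  unfold LL
  rw [map_mul, map_sub, map_add, map_one, map_sm, map_sm, map_NN, map_NN, map_W1, map_W0]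
  simp only [map_mul, map_cc]

private theorem map_gg (φ : A →ₐ[ℂ] B) (u a b t : A) :
    φ.mapMatrix (gg u a b t) = gg (φ u) (φ a) (φ b) (φ t) := by
  unfold gg
  rw [map_mul, map_LL, map_LL]
  simp only [map_mul, map_cc]

private theorem map_J0 (φ : A →ₐ[ℂ] B) (t : A) : φ.mapMatrix (J0 t) = J0 (φ t) := by
  ext i j
  fin_cases i <;> fin_cases j <;> simp [J0]

private theorem map_SS (φ : A →ₐ[ℂ] B) (u a b t : A) (i j : Fin 2) :
    φ (SS u a b t i j) = SS (φ u) (φ a) (φ b) (φ t) i j := by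
  have h1 : φ.mapMatrix (gg u a b t).transpose = (φ.mapMatrix (gg u a b t)).transpose := by
    ext i j
    simp
  have h : φ.mapMatrix (SS u a b t) = SS (φ u) (φ a) (φ b) (φ t) := by
    unfold SS
    rw [map_neg, map_mul, map_mul, h1, map_gg, map_J0]
  rw [← h]
  simp

end nat

theorem hPKV : StPKV := by
  intro h a b t
  have hk : kp = h.choose := dif_pos h
  obtain ⟨e0, e1, e2⟩ := h.choose_spec
  rw [← hk] at e0 e1 e2
  have f0 := congrArg (MvPolynomial.aeval ![a, b, t]) e0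
  have f1 := congrArg (MvPolynomial.aeval ![a, b, t]) e1
  have f2 := congrArg (MvPolynomial.aeval ![a, b, t]) e2
  rw [map_SS] at f0 f1 f2
  simp only [map_add, map_mul, map_neg, map_pow, map_one, map_nu, MvPolynomial.aeval_X,
    Matrix.cons_val_zero, Matrix.cons_val_one, Matrix.cons_val] at f0 f1 f2
  exact ⟨f0, f1, f2⟩

end Pool.Agent.Helper16.FX
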