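import Pool.Agent.Helper65.FX.St

set_option autoImplicit false

/-!
Project FX, chapter S, module SEL: continuous approximate right inverses.
-/

namespace Pool.Agent.Helper16.FX

open Pool.Agent.Helper65.FX Pool.Agent.Helper87.FX
open scoped Topology

theorem hSEL : StSEL := by
  intro V E E' _ _ _ _ _ _ _ _ _ L A η hL hA hsurj hη
  have hconv : ∀ x : V, Convex ℝ {B : E' →L[ℝ] E | x ∈ L →
      ‖(A x).comp B - ContinuousLinearMap.id ℝ E'‖ < η} := by
    intro x
    intro B hB B' hB' a b ha hb hab hx
    have h1 := hB hx
    have h2 := hB' hx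
    have e : (A x).comp (a • B + b • B') - ContinuousLinearMap.id ℝ E' =
        a • ((A x).comp B - ContinuousLinearMap.id ℝ E') +
          b • ((A x).comp B' - ContinuousLinearMap.id ℝ E') := by
      have h3 : ContinuousLinearMap.id ℝ E' = a • ContinuousLinearMap.id ℝ E' +
          b • ContinuousLinearMap.id ℝ E' := by
        rw [← add_smul, hab, one_smul]
      rw [ContinuousLinearMap.comp_add, ContinuousLinearMap.comp_smul,
        ContinuousLinearMap.comp_smul, smul_sub, smul_sub]
      nth_rewrite 1 [h3]
      abel
    change ‖(A x).comp (a • B + b • B') - ContinuousLinearMap.id ℝ E'‖ < η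
    have hball := convex_ball (0 : E' →L[ℝ] E') η
    have h4 := hball (x := (A x).comp B - ContinuousLinearMap.id ℝ E') (by simpa using h1)
      (y := (A x).comp B' - ContinuousLinearMap.id ℝ E') (by simpa using h2) ha hb hab
    rw [e]
    simpa using h4
  have hloc : ∀ x : V, ∃ B : E' →L[ℝ] E, ∀ᶠ y in 𝓝 x, B ∈ {B : E' →L[ℝ] E | y ∈ L →
      ‖(A y).comp B - ContinuousLinearMap.id ℝ E'‖ < η} := by
    intro x
    by_cases hx : x ∈ L
    · obtain ⟨g, hg⟩ := LinearMap.exists_rightInverse_of_surjective (A x : E →ₗ[ℝ] E')
        (LinearMap.range_eq_top.2 (hsurj x hx))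
      refine ⟨LinearMap.toContinuousLinearMap g, ?_⟩
      have hc : Continuous (fun y : V => ‖(A y).comp (LinearMap.toContinuousLinearMap g) -
          ContinuousLinearMap.id ℝ E'‖) := by
        refine Continuous.norm (Continuous.sub ?_ continuous_const)
        exact hA.clm_comp continuous_const
      have h0 : ‖(A x).comp (LinearMap.toContinuousLinearMap g) -
          ContinuousLinearMap.id ℝ E'‖ < η := by
        have : (A x).comp (LinearMap.toContinuousLinearMap g) = ContinuousLinearMap.id ℝ E' := by
          ext v
          have := LinearMap.congr_fun hg v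
          simpa using this
        rw [this, sub_self, norm_zero]
        exact hη
      filter_upwards [hc.continuousAt.eventually_lt continuousAt_const h0] with y hy _
      exact hy
    · refine ⟨0, ?_⟩
      filter_upwards [hL.isClosed.isOpen_compl.mem_nhds hx] with y hy hyL
      exact absurd hyL hy
  obtain ⟨g, hg⟩ := exists_continuous_forall_mem_convex_of_local_const hconv hloc
  exact ⟨g, g.continuous, fun x hx => hg x hx⟩

end Pool.Agent.Helper16.FX
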