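import Pool.Agent.Helper87.FX.StC

/-!
# Project FX (MP_3bffab_ag), chapter S: module SUS

The assembly of chapter S: a weakly contractible suspension times its ambient space is an open cell.
-/

set_option autoImplicit false

namespace Pool.Agent.Helper16.FX

open Pool.Agent.Helper87.FX
open Set Topology Metric Filter
open scoped ContDiff

theorem hSUS : TRET → THOM → TAPX → StHPL → StDER → StFAM → StGEN → StSMO → StCEL → StEXH →
    StMUN → StSUS := by
  intro hRET hHOM hAPX hHPL hDER hFAM hGEN hSMO hCEL hEXH hMUN n F hF hW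
  obtain ⟨H, hH⟩ := hHPL n F
  obtain ⟨hsm, -⟩ := hDER n F
  obtain ⟨hcl, hsurj⟩ := hSMO n F hF
  have hfl : ∀ e ∈ Fl H, Flw (YC F) e := fun e he => (hFAM n F H hH e he).1
  have hret : Ret (YC F) := hRET (AV n) (Pq F) hsm (fun x hx => hsurj x hx)
  have hhmt : Hmt (Fl H) (YC F) :=
    hHOM (AV n) (Pq F) (Fl H) hsm (fun x hx => hsurj x hx) hfl
      (fun y hy => hGEN n F H hF hH y hy)
  have hapx : Apx (Fl H) (YC F) := hAPX (AV n) (YC F) (Fl H) hfl
  obtain ⟨e0, he0, hr0⟩ := hCEL n F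
  have hopen : IsOpen {y : AV n | ‖y.1 - 1‖ < 1 / 2} := by
    apply isOpen_lt
    · exact (continuous_fst.sub continuous_const).norm
    · exact continuous_const
  have hy1 : ((1 : ℂ), MvPolynomial.eval (0 : Fin n → ℂ) F, (0 : Fin n → ℂ)) ∈ YC F := by
    change Pq F _ = 0
    simp [Pq]
  have hy2 : ((1 : ℂ), MvPolynomial.eval (0 : Fin n → ℂ) F, (0 : Fin n → ℂ)) ∈
      {y : AV n | ‖y.1 - 1‖ < 1 / 2} := by
    change ‖(1 : ℂ) - 1‖ < 1 / 2
    norm_num
  have hexh : Exh ((ℂ × (Fin n → ℂ)) × AV n) (YC F ×ˢ (univ : Set (AV n))) :=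
    hEXH ((ℂ × (Fin n → ℂ)) × AV n) (AV n) (YC F) {y : AV n | ‖y.1 - 1‖ < 1 / 2} e0 (Fl H) _ hW hret hhmt
      hapx hopen hy1 hy2 he0 hr0
  exact hMUN ((ℂ × (Fin n → ℂ)) × AV n) (AV n × AV n) (YC F ×ˢ (univ : Set (AV n)))
    (hcl.prod isClosed_univ) hexh

end Pool.Agent.Helper16.FX
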